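import Pool.Agent.Q218.HB.Stm4

/-! Project HB, job BDD: the Hilbert-Schmidt norm changes by a bounded amount if one value of the
potential is changed. -/

set_option autoImplicit false

open MeasureTheory Pool.Agent.Q218.HB

namespace Pool.Agent.Q195.HB

section

variable {Λ : Type} [Fintype Λ]

/-- the norm -/
noncomputable def N (f : Λ → ℂ) : ℝ := ‖(WithLp.toLp 2 f : EuclideanSpace ℂ Λ)‖

theorem N_sq (f : Λ → ℂ) : N f ^ 2 = ∑ x, ‖f x‖ ^ 2 := by
  unfold N
  rw [EuclideanSpace.norm_sq_eq]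

theorem N_nonneg (f : Λ → ℂ) : 0 ≤ N f := norm_nonneg _

theorem N_add (f g : Λ → ℂ) : N (fun x => f x + g x) ≤ N f + N g := norm_add_le _ _

theorem N_sub (f g : Λ → ℂ) : N (fun x => f x - g x) ≤ N f + N g := norm_sub_le _ _

theorem N_smul (c : ℂ) (f : Λ → ℂ) : N (fun x => c * f x) = ‖c‖ * N f := norm_smul c _

theorem N_conj (f : Λ → ℂ) : N (fun x => (starRingEnd ℂ) (f x)) = N f := by
  have h : N (fun x => (starRingEnd ℂ) (f x)) ^ 2 = N f ^ 2 := by
    rw [N_sq, N_sq]
    exact Finset.sum_congr rfl fun x _ => by rw [RCLike.norm_conj]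
  exact (pow_left_inj₀ (N_nonneg _) (N_nonneg _) two_ne_zero).1 h

theorem cs (f g : Λ → ℂ) : ‖∑ x, f x * g x‖ ≤ N f * N g := by
  have h1 : ‖∑ x, f x * g x‖ ≤ ∑ x, ‖f x‖ * ‖g x‖ :=
    (norm_sum_le _ _).trans (le_of_eq (Finset.sum_congr rfl fun x _ => norm_mul _ _))
  refine h1.trans ?_
  have h2 := Finset.sum_mul_sq_le_sq_mul_sq Finset.univ (fun x => ‖f x‖) fun x => ‖g x‖
  rw [← N_sq, ← N_sq, ← mul_pow] at h2
  exact le_of_sq_le_sq h2 (mul_nonneg (N_nonneg _) (N_nonneg _))

variable [DecidableEq Λ]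

/-- the matrix acting on a vector -/
noncomputable def mv (M : Matrix Λ Λ ℂ) (f : Λ → ℂ) : Λ → ℂ := fun x => ∑ y, M x y * f y

theorem opb (opb0 : S_OPB) {h : Λ → Λ → ℝ} (V : Λ → ℝ) {z : ℂ} (hs : ∀ x y, h x y = h y x)
    (hz : 0 < z.im) (f : Λ → ℂ) : N (mv (G h V z) f) ≤ N f / z.im := by
  have h1 := opb0 Λ h V z hs hz f
  rw [← N_sq f, ← div_pow] at h1
  have h2 : N (mv (G h V z) f) ^ 2 ≤ (N f / z.im) ^ 2 := by
    rw [N_sq]
    exact h1
  exact le_of_sq_le_sq h2 (div_nonneg (N_nonneg _) hz.le)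

/-- the resolvent identity for the change of one value -/
theorem upd (inv : S_INV) {h : Λ → Λ → ℝ} (V : Λ → ℝ) {z : ℂ} (hs : ∀ x y, h x y = h y x)
    (hz : z.im ≠ 0) (x : Λ) (t : ℝ) (a b : Λ) :
    G h (Function.update V x t) z a b - G h V z a b =
      ((V x - t : ℝ) : ℂ) * (G h (Function.update V x t) z a x * G h V z x b) := by
  obtain ⟨a1, a2, -⟩ := inv Λ h V z hs hz
  obtain ⟨b1, b2, -⟩ := inv Λ h (Function.update V x t) z hs hz
  set G1 := G h V z
  set G2 := G h (Function.update V x t) z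
  have h1 : G2 * ((Hm h V - z • (1 : Matrix Λ Λ ℂ)) -
      (Hm h (Function.update V x t) - z • (1 : Matrix Λ Λ ℂ))) * G1 = G2 - G1 := by
    rw [Matrix.mul_sub, Matrix.sub_mul, b2, Matrix.one_mul, Matrix.mul_assoc, a1, Matrix.mul_one]
  have h2 : (Hm h V - z • (1 : Matrix Λ Λ ℂ)) -
      (Hm h (Function.update V x t) - z • (1 : Matrix Λ Λ ℂ)) =
      Matrix.of fun p q => if p = x ∧ q = x then ((V x - t : ℝ) : ℂ) else 0 := by
    ext p q
    rw [Matrix.of_apply]
    have : ((Hm h V - z • (1 : Matrix Λ Λ ℂ)) -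
      (Hm h (Function.update V x t) - z • (1 : Matrix Λ Λ ℂ))) p q =
      Hm h V p q - Hm h (Function.update V x t) p q := by
      simp only [Matrix.sub_apply]
      ring
    rw [this]
    unfold Hm
    by_cases hpq : p = q
    · subst hpq
      by_cases hp : p = x
      · subst hp
        simp
      · simp [hp]
    · have : ¬ (p = x ∧ q = x) := fun h => hpq (h.1.trans h.2.symm)
      simp [hpq, this]
  rw [h2] at h1
  have h3 := congrFun (congrFun h1 a) b
  rw [Matrix.sub_apply] at h3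
  rw [← h3, Matrix.mul_apply]
  rw [Finset.sum_eq_single x]
  · rw [Matrix.mul_apply, Finset.sum_eq_single x]
    · simp
      ring
    · intro q _ hq
      simp [hq]
    · intro h; exact absurd (Finset.mem_univ _) h
  · intro q _ hq
    rw [Matrix.mul_apply, Finset.sum_eq_zero, zero_mul]
    intro p _
    simp [hq]
  · intro h; exact absurd (Finset.mem_univ _) h

theorem main (inv : S_INV) (opb0 : S_OPB) {h : Λ → Λ → ℝ} (V : Λ → ℝ) {z : ℂ}
    (hs : ∀ x y, h x y = h y x) (hz : 0 < z.im) (x : Λ) (t : ℝ) :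
    |(∑ a, ∑ b, ‖G h (Function.update V x t) z a b - G h (fun _ => 0) z a b‖ ^ 2) -
      ∑ a, ∑ b, ‖G h V z a b - G h (fun _ => 0) z a b‖ ^ 2| ≤ 8 / z.im ^ 2 := by
  set η := z.im
  set V' := Function.update V x t with hV'
  set c : ℂ := ((V x - t : ℝ) : ℂ) with hc
  set u : Λ → ℂ := fun a => G h V' z a x with hu
  set v : Λ → ℂ := fun b => G h V z x b with hv
  set Y : Matrix Λ Λ ℂ := fun a b => G h V z a b + G h V' z a b - 2 * G h (fun _ => 0) z a b with hY
  have hD : ∀ a b, G h V' z a b - G h V z a b = c * (u a * v b) := fun a b =>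
    upd inv V hs hz.ne' x t a b
  have hcv : N (fun b => (starRingEnd ℂ) (v b)) = N v := N_conj v
  -- the norm of the rank one matrix
  have hrank : ‖c‖ * N u * N v ≤ 2 / η := by
    rcases (N_nonneg v).eq_or_lt with h0 | h0
    · rw [← h0, mul_zero]
      positivity
    · have h1 : N (fun a => mv (G h V' z) (fun b => (starRingEnd ℂ) (v b)) a -
          mv (G h V z) (fun b => (starRingEnd ℂ) (v b)) a) ≤ N v / η + N v / η := by
        refine (N_sub _ _).trans ?_
        have h2 := opb opb0 V' hs hz fun b => (starRingEnd ℂ) (v b)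
        have h3 := opb opb0 V hs hz fun b => (starRingEnd ℂ) (v b)
        rw [hcv] at h2 h3
        exact add_le_add h2 h3
      have h2 : (fun a => mv (G h V' z) (fun b => (starRingEnd ℂ) (v b)) a -
          mv (G h V z) (fun b => (starRingEnd ℂ) (v b)) a) = fun a => (c * ((N v ^ 2 : ℝ) : ℂ)) * u a := by
        funext a
        unfold mv
        rw [← Finset.sum_sub_distrib, N_sq]
        push_cast
        rw [Finset.mul_sum, Finset.sum_mul]
        refine Finset.sum_congr rfl fun b _ => ?_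
        rw [← sub_mul, hD a b]
        have h3 : v b * (starRingEnd ℂ) (v b) = ((‖v b‖ : ℝ) : ℂ) ^ 2 := by
          rw [Complex.mul_conj, Complex.normSq_eq_norm_sq]
          push_cast
          rfl
        rw [← h3]
        ring
      have h4 : ‖((N v ^ 2 : ℝ) : ℂ)‖ = N v ^ 2 := by
        rw [Complex.norm_real, Real.norm_of_nonneg (sq_nonneg _)]
      rw [h2, N_smul, norm_mul, h4] at h1
      have h3 : ‖c‖ * N u * N v * N v ≤ 2 / η * N v := by
        have e1 : ‖c‖ * N v ^ 2 * N u = ‖c‖ * N u * N v * N v := by ring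
        have e2 : N v / η + N v / η = 2 / η * N v := by ring
        rw [e1, e2] at h1
        exact h1
      exact le_of_mul_le_mul_right h3 h0
  have hYn : N (mv Y fun b => (starRingEnd ℂ) (v b)) ≤ 4 / η * N v := by
    have h1 : mv Y (fun b => (starRingEnd ℂ) (v b)) = fun a =>
        (mv (G h V z) (fun b => (starRingEnd ℂ) (v b)) a +
        mv (G h V' z) (fun b => (starRingEnd ℂ) (v b)) a) -
        2 * mv (G h (fun _ => 0) z) (fun b => (starRingEnd ℂ) (v b)) a := by
      funext a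
      unfold mv
      rw [← Finset.sum_add_distrib, Finset.mul_sum, ← Finset.sum_sub_distrib]
      refine Finset.sum_congr rfl fun b _ => ?_
      rw [hY]
      ring
    rw [h1]
    refine (N_sub _ _).trans ?_
    have h2 := N_add (mv (G h V z) fun b => (starRingEnd ℂ) (v b))
      (mv (G h V' z) fun b => (starRingEnd ℂ) (v b))
    have h3 := opb opb0 V hs hz fun b => (starRingEnd ℂ) (v b)
    have h4 := opb opb0 V' hs hz fun b => (starRingEnd ℂ) (v b)
    have h5 := opb opb0 (fun _ => 0) hs hz fun b => (starRingEnd ℂ) (v b)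
    rw [hcv] at h3 h4 h5
    have h6 : N (fun a => 2 * mv (G h (fun _ => 0) z) (fun b => (starRingEnd ℂ) (v b)) a) ≤
        2 * (N v / η) := by
      rw [N_smul]
      have : ‖(2 : ℂ)‖ = 2 := by norm_num
      rw [this]
      exact mul_le_mul_of_nonneg_left h5 zero_le_two
    have e : 4 / η * N v = (N v / η + N v / η) + 2 * (N v / η) := by ring
    rw [e]
    linarith
  have hdiff : (∑ a, ∑ b, ‖G h V' z a b - G h (fun _ => 0) z a b‖ ^ 2) -
      ∑ a, ∑ b, ‖G h V z a b - G h (fun _ => 0) z a b‖ ^ 2 =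
      (∑ a, ((starRingEnd ℂ) (c * u a)) * mv Y (fun b => (starRingEnd ℂ) (v b)) a).re := by
    rw [← Finset.sum_sub_distrib, Complex.re_sum]
    refine Finset.sum_congr rfl fun a _ => ?_
    unfold mv
    rw [← Finset.sum_sub_distrib, Finset.mul_sum, Complex.re_sum]
    refine Finset.sum_congr rfl fun b _ => ?_
    have e1 : (starRingEnd ℂ) (c * u a) * (Y a b * (starRingEnd ℂ) (v b)) =
        (starRingEnd ℂ) (G h V' z a b - G h V z a b) *
          (G h V z a b + G h V' z a b - 2 * G h (fun _ => 0) z a b) := by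
      rw [hD a b, map_mul, map_mul, map_mul, hY]
      ring
    rw [e1, ← Complex.normSq_eq_norm_sq, ← Complex.normSq_eq_norm_sq, Complex.normSq_apply,
      Complex.normSq_apply]
    simp only [Complex.mul_re, Complex.conj_re, Complex.conj_im, Complex.sub_re, Complex.sub_im,
      Complex.add_re, Complex.add_im, Complex.mul_im, Complex.re_ofNat, Complex.im_ofNat]
    ring
  rw [hdiff]
  refine (Complex.abs_re_le_norm _).trans ((cs _ _).trans ?_)
  have e1 : N (fun a => (starRingEnd ℂ) (c * u a)) = ‖c‖ * N u := by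
    rw [N_conj, N_smul]
  rw [e1]
  have hpos : 0 ≤ ‖c‖ * N u := mul_nonneg (norm_nonneg _) (N_nonneg _)
  calc ‖c‖ * N u * N (mv Y fun b => (starRingEnd ℂ) (v b)) ≤ ‖c‖ * N u * (4 / η * N v) :=
        mul_le_mul_of_nonneg_left hYn hpos
    _ = 4 / η * (‖c‖ * N u * N v) := by ring
    _ ≤ 4 / η * (2 / η) := mul_le_mul_of_nonneg_left hrank (by positivity)
    _ = 8 / η ^ 2 := by ring

end

theorem bdd : S_BDD := by
  intro inv opb0 d n _ E η hη V x t
  have hz : (Q218.HB.pt E η).im = η := by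
    unfold Q218.HB.pt
    simp
  have h1 := main inv opb0 (h := hop) V (z := Q218.HB.pt E η) hop_symm (by rw [hz]; exact hη) x t
  rw [hz] at h1
  exact h1

end Pool.Agent.Q195.HB
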