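import Pool.Agent.Q218.HB.Stm4

/-! Project HB, job PSH: the restriction of the iid field to a box is iid. -/

set_option autoImplicit false

open MeasureTheory Pool.Agent.Q218.HB

namespace Pool.Agent.Q195.HB

theorem psh : S_PSH := by
  intro d n _ ν _
  have inj : Function.Injective fun (x : Tor d n) (i : Fin d) => ((x i).val : ℤ) := by
    intro x y h
    funext i
    have h1 : ((x i).val : ℤ) = ((y i).val : ℤ) := congrFun h i
    exact ZMod.val_injective n (by exact_mod_cast h1)
  have hm : Measurable fun (ω : (Fin d → ℤ) → ℝ) (x : Tor d n) => ω fun i => ((x i).val : ℤ) :=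
    measurable_pi_lambda _ fun x => measurable_pi_apply _
  unfold iid
  symm
  refine Measure.pi_eq fun s hs => ?_
  rw [Measure.map_apply hm (MeasurableSet.univ_pi hs)]
  set T : (Fin d → ℤ) → Set ℝ :=
    Function.extend (fun (x : Tor d n) (i : Fin d) => ((x i).val : ℤ)) s fun _ => Set.univ with hT
  have hTx : ∀ x : Tor d n, T (fun i => ((x i).val : ℤ)) = s x := fun x => inj.extend_apply s _ x
  have hpre : (fun (ω : (Fin d → ℤ) → ℝ) (x : Tor d n) => ω fun i => ((x i).val : ℤ)) ⁻¹'
      Set.univ.pi s = Set.pi (Finset.univ.image fun (x : Tor d n) (i : Fin d) => ((x i).val : ℤ)) T := by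
    ext ω
    simp only [Set.mem_preimage, Set.mem_pi, Set.mem_univ, true_implies, Finset.coe_image,
      Finset.coe_univ, Set.image_univ, Set.mem_range, forall_exists_index]
    constructor
    · rintro h _ x rfl
      rw [hTx]
      exact h x
    · intro h x
      have := h _ x rfl
      rwa [hTx] at this
  rw [hpre, Measure.infinitePi_pi, Finset.prod_image fun x _ y _ h => inj h]
  · refine Finset.prod_congr rfl fun x _ => ?_
    rw [hTx]
  · intro i hi
    obtain ⟨x, -, rfl⟩ := Finset.mem_image.1 hi
    rw [hTx]
    exact hs x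

end Pool.Agent.Q195.HB
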